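import Pool.Agent.H93.HQ.Targets2

/-! # Board HQ, module N4: the lower bound near the critical exponent -/

namespace Pool.Agent.H67.HQ
open MeasureTheory Set Filter Topology Pool.Agent.H80.HS Pool.Agent.H93.HQ
open scoped ContDiff ENNReal

theorem n4_log (n : ℕ) (hn : 1 ≤ n) : (1 : ℝ) ≤ 2 * Real.log (n + 1) := by
  have hn' : (1 : ℝ) ≤ n := by exact_mod_cast hn
  have h1 : Real.log 2 ≤ Real.log ((n : ℝ) + 1) := Real.log_le_log (by norm_num) (by linarith)
  have := Real.log_two_gt_d9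
  linarith

/-- The size of `log (sg n 0)`. -/
theorem n4_sg0 {A : ℝ} {n : ℕ} (hn : 1 ≤ n)
    (h : |Real.log (sg n 0) - n * Real.log (Real.pi * Real.exp 1 / n)| ≤
      A * Real.log (n + 1)) :
    |Real.log (sg n 0)| ≤ (7 + |A|) * Real.log (n + 1) * (2 * n + 2) := by
  have hn' : (1 : ℝ) ≤ n := by exact_mod_cast hn
  have hl := n4_log n hn
  have hl0 : 0 ≤ Real.log ((n : ℝ) + 1) := by linarith
  have h1 : Real.log (Real.pi * Real.exp 1 / n) = Real.log Real.pi + 1 - Real.log n := by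
    rw [Real.log_div (by positivity) (by positivity), Real.log_mul (by positivity)
      (by positivity), Real.log_exp]
  have h2 : 0 ≤ Real.log Real.pi := Real.log_nonneg (by linarith [Real.pi_gt_three])
  have h3 : Real.log Real.pi ≤ 2 := by
    have h4 : Real.log Real.pi ≤ Real.log 4 :=
      Real.log_le_log Real.pi_pos Real.pi_le_four
    have h5 : Real.log 4 ≤ 2 := by
      have : (4 : ℝ) = 2 ^ 2 := by norm_num
      rw [this, Real.log_pow]
      have := Real.log_two_lt_d9
      push_cast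
      linarith
    linarith
  have h4 : 0 ≤ Real.log (n : ℝ) := Real.log_nonneg hn'
  have h5 : Real.log (n : ℝ) ≤ Real.log ((n : ℝ) + 1) :=
    Real.log_le_log (by linarith) (by linarith)
  have h6 : |Real.log (Real.pi * Real.exp 1 / n)| ≤ 7 * Real.log ((n : ℝ) + 1) := by
    rw [h1, abs_le]
    constructor <;> linarith
  have h7 : |Real.log (sg n 0)| ≤
      |Real.log (sg n 0) - n * Real.log (Real.pi * Real.exp 1 / n)| +
      |n * Real.log (Real.pi * Real.exp 1 / n)| := by
    have := abs_add_le (Real.log (sg n 0) - n * Real.log (Real.pi * Real.exp 1 / n))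
      (n * Real.log (Real.pi * Real.exp 1 / n))
    rwa [sub_add_cancel] at this
  rw [abs_mul, abs_of_nonneg (by linarith : (0 : ℝ) ≤ n)] at h7
  have h8 : (n : ℝ) * |Real.log (Real.pi * Real.exp 1 / n)| ≤
      n * (7 * Real.log ((n : ℝ) + 1)) := mul_le_mul_of_nonneg_left h6 (by linarith)
  have h9 : A * Real.log ((n : ℝ) + 1) ≤ |A| * Real.log ((n : ℝ) + 1) :=
    mul_le_mul_of_nonneg_right (le_abs_self A) hl0
  have h10 : 0 ≤ |A| * Real.log ((n : ℝ) + 1) := mul_nonneg (abs_nonneg A) hl0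
  have h11 : 0 ≤ |A| * Real.log ((n : ℝ) + 1) * n := mul_nonneg h10 (by linarith)
  have h12 : 0 ≤ (n : ℝ) * Real.log ((n : ℝ) + 1) := mul_nonneg (by linarith) hl0
  calc |Real.log (sg n 0)| ≤ A * Real.log (n + 1) + n * (7 * Real.log ((n : ℝ) + 1)) := by
        linarith
    _ ≤ (7 + |A|) * Real.log (n + 1) * (2 * n + 2) := by
        nlinarith

theorem pf_N4 (h1 : U_SL) (h2 : U_S0) : U_N4 := by
  obtain ⟨A, hA⟩ := h2
  refine ⟨15 + |A|, fun n hn p hp1 hp2 => ?_⟩
  have hn' : (1 : ℝ) ≤ n := by exact_mod_cast hn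
  have hl := n4_log n hn
  have hl0 : 0 ≤ Real.log ((n : ℝ) + 1) := by linarith
  set Q : ℝ := 2 * (n : ℝ) + 2 with hQ
  set y : ℝ := Q - p with hy
  have hy0 : 0 < y := by linarith
  have hy1 : y ≤ 1 := by linarith
  have hQ0 : 0 < Q := by linarith
  have hp : 1 ≤ p - 1 := by linarith
  have hs0 : 0 < sg n 0 := sg_pos hn le_rfl
  have hsp : 0 < sg n p := sg_pos hn (by linarith)
  have hsQ : 0 < sg n Q := sg_pos hn (by linarith)
  have hLB : LB2 n p = (sg n 0 / Q) ^ (y / Q) * 2 ^ (-(y / (p - 1))) * (sg n p)⁻¹ *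
      ((p - 1) / y) ^ (p - 1) := by
    unfold LB2
    rw [← hQ, ← hy]
  have hpy : 0 < (p - 1) / y := div_pos (by linarith) hy0
  have a1 : 0 < (sg n 0 / Q) ^ (y / Q) := Real.rpow_pos_of_pos (by positivity) _
  have a2 : 0 < (2 : ℝ) ^ (-(y / (p - 1))) := Real.rpow_pos_of_pos (by norm_num) _
  have a3 : 0 < (sg n p)⁻¹ := by positivity
  have a4 : 0 < ((p - 1) / y) ^ (p - 1) := Real.rpow_pos_of_pos hpy _
  have hpos : 0 < LB2 n p := by rw [hLB]; positivity
  refine ⟨hpos, ?_⟩
  have hlog : Real.log (LB2 n p) = y / Q * (Real.log (sg n 0) - Real.log Q) -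
      y / (p - 1) * Real.log 2 - Real.log (sg n p) +
      (p - 1) * (Real.log (p - 1) - Real.log y) := by
    rw [hLB, Real.log_mul (by positivity) a4.ne', Real.log_mul (by positivity) a3.ne',
      Real.log_mul a1.ne' a2.ne', Real.log_rpow (by positivity), Real.log_rpow (by norm_num),
      Real.log_rpow hpy, Real.log_inv, Real.log_div hs0.ne' hQ0.ne',
      Real.log_div (by linarith) hy0.ne']
    ring
  have hMC : MC n p = (p - 1) * (Real.log (Q - 1) - Real.log y) - Real.log (sg n Q) := by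
    unfold MC
    have e : 2 * (n : ℝ) + 1 = Q - 1 := by rw [hQ]; ring
    rw [e, ← hQ, ← hy, Real.log_div (by linarith) hy0.ne']
  have b1 : (p - 1) * (Real.log (Q - 1) - Real.log (p - 1)) ≤ y := by
    have c1 : Real.log ((Q - 1) / (p - 1)) ≤ (Q - 1) / (p - 1) - 1 :=
      Real.log_le_sub_one_of_pos (div_pos (by linarith) (by linarith))
    rw [Real.log_div (by linarith) (by linarith)] at c1
    have c2 : (p - 1) * (Real.log (Q - 1) - Real.log (p - 1)) ≤
        (p - 1) * ((Q - 1) / (p - 1) - 1) := mul_le_mul_of_nonneg_left c1 (by linarith)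
    have c3 : (p - 1) * ((Q - 1) / (p - 1) - 1) = y := by
      have : p - 1 ≠ 0 := by linarith
      field_simp
      rw [hy]; ring
    linarith
  have b2 : Real.log (sg n p) - Real.log (sg n Q) ≤ y := (h1 n hn p hp1 hp2.le).2
  have b3 : y / (p - 1) * Real.log 2 ≤ y := by
    have c1 : y / (p - 1) ≤ y := div_le_self hy0.le hp
    have c2 : 0 ≤ y / (p - 1) := div_nonneg hy0.le (by linarith)
    have c3 : Real.log 2 ≤ 1 := by linarith [Real.log_two_lt_d9]
    calc y / (p - 1) * Real.log 2 ≤ y / (p - 1) * 1 := mul_le_mul_of_nonneg_left c3 c2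
      _ ≤ y := by linarith
  have b4 : -(y / Q * (Real.log (sg n 0) - Real.log Q)) ≤
      y * ((7 + |A|) * Real.log (n + 1) + 1) := by
    have c1 := n4_sg0 hn (hA n hn)
    rw [← hQ] at c1
    have c2 : -(Real.log (sg n 0) - Real.log Q) ≤ ((7 + |A|) * Real.log (n + 1) + 1) * Q := by
      have c3 : Real.log Q ≤ Q := by
        have := Real.log_le_sub_one_of_pos hQ0
        linarith
      have c4 := neg_abs_le (Real.log (sg n 0))
      linarith
    have c5 : y / Q * (-(Real.log (sg n 0) - Real.log Q)) ≤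
        y / Q * (((7 + |A|) * Real.log (n + 1) + 1) * Q) :=
      mul_le_mul_of_nonneg_left c2 (by positivity)
    have c6 : y / Q * (((7 + |A|) * Real.log (n + 1) + 1) * Q) =
        y * ((7 + |A|) * Real.log (n + 1) + 1) := by
      field_simp
    linarith
  have b5 : y ≤ y ^ ((2 * (n : ℝ) + 1) / Q) := by
    have c1 : (2 * (n : ℝ) + 1) / Q ≤ 1 := by
      rw [div_le_one hQ0]; linarith
    calc y = y ^ (1 : ℝ) := (Real.rpow_one y).symm
      _ ≤ y ^ ((2 * (n : ℝ) + 1) / Q) := Real.rpow_le_rpow_of_exponent_ge hy0 hy1 c1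
  have b6 : (15 + |A|) * Real.log (n + 1) * y ≤
      (15 + |A|) * Real.log (n + 1) * y ^ ((2 * (n : ℝ) + 1) / Q) :=
    mul_le_mul_of_nonneg_left b5 (mul_nonneg (by positivity) hl0)
  have b7 : y ≤ 2 * Real.log (n + 1) * y := by nlinarith
  rw [hlog, hMC]
  nlinarith

end Pool.Agent.H67.HQ
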