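import Pool.Agent.H93.HQ.Targets2

/-! # Board HQ, module SL: `sg n s` near `Q` -/

namespace Pool.Agent.H67.HQ
open MeasureTheory Set Filter Topology Pool.Agent.H80.HS Pool.Agent.H93.HQ
open scoped ContDiff ENNReal

/-- `Gamma x / Gamma (x + 1/2)` is antitone. -/
theorem sl_anti {x y : ℝ} (hx : 0 < x) (hxy : x ≤ y) :
    Real.Gamma y * Real.Gamma (x + 1 / 2) ≤ Real.Gamma x * Real.Gamma (y + 1 / 2) := by
  rcases hxy.eq_or_lt with h | h
  · rw [h]
  have hy : 0 < y := hx.trans h
  have hd : 0 < y - x + 1 / 2 := by linarith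
  set b : ℝ := (1 / 2) / (y - x + 1 / 2) with hb
  set a : ℝ := (y - x) / (y - x + 1 / 2) with ha
  have hb0 : 0 < b := by positivity
  have ha0 : 0 < a := div_pos (by linarith) hd
  have hab : a + b = 1 := by
    rw [ha, hb, ← add_div, div_self hd.ne']
  have hbd : b * (y - x + 1 / 2) = 1 / 2 := by rw [hb, div_mul_cancel₀ _ hd.ne']
  have had : a * (y - x + 1 / 2) = y - x := by rw [ha, div_mul_cancel₀ _ hd.ne']
  have e1 : x + 1 / 2 = a * x + b * (y + 1 / 2) := by
    have : a = 1 - b := by linarith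
    rw [this]
    linear_combination -hbd
  have e2 : y = b * x + a * (y + 1 / 2) := by
    have : b = 1 - a := by linarith
    rw [this]
    linear_combination -had
  have hGx : 0 < Real.Gamma x := Real.Gamma_pos_of_pos hx
  have hGy : 0 < Real.Gamma (y + 1 / 2) := Real.Gamma_pos_of_pos (by linarith)
  have h1 : Real.Gamma (x + 1 / 2) ≤ Real.Gamma x ^ a * Real.Gamma (y + 1 / 2) ^ b := by
    conv_lhs => rw [e1]
    exact Real.Gamma_mul_add_mul_le_rpow_Gamma_mul_rpow_Gamma hx (by linarith) ha0 hb0 hab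
  have h2 : Real.Gamma y ≤ Real.Gamma x ^ b * Real.Gamma (y + 1 / 2) ^ a := by
    conv_lhs => rw [e2]
    exact Real.Gamma_mul_add_mul_le_rpow_Gamma_mul_rpow_Gamma hx (by linarith) hb0 ha0
      (by linarith)
  calc Real.Gamma y * Real.Gamma (x + 1 / 2)
      ≤ (Real.Gamma x ^ b * Real.Gamma (y + 1 / 2) ^ a) *
        (Real.Gamma x ^ a * Real.Gamma (y + 1 / 2) ^ b) :=
        mul_le_mul h2 h1 (Real.Gamma_pos_of_pos (by linarith)).le (by positivity)
    _ = (Real.Gamma x ^ a * Real.Gamma x ^ b) *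
        (Real.Gamma (y + 1 / 2) ^ a * Real.Gamma (y + 1 / 2) ^ b) := by ring
    _ = Real.Gamma x * Real.Gamma (y + 1 / 2) := by
        rw [← Real.rpow_add hGx, ← Real.rpow_add hGy, hab, Real.rpow_one, Real.rpow_one]

/-- Upper slope bound of `log Gamma`. -/
theorem sl_up {u h : ℝ} (hu : 0 < u) (hh : 0 < h) :
    Real.log (Real.Gamma (u + h)) - Real.log (Real.Gamma u) ≤ h * Real.log (u + h) := by
  have h1 := Real.convexOn_log_Gamma.slope_mono_adjacent (x := u) (y := u + h) (z := u + h + 1)
    (mem_Ioi.2 hu) (mem_Ioi.2 (by linarith)) (by linarith) (by linarith)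
  simp only [Function.comp_apply] at h1
  have h2 : Real.Gamma (u + h + 1) = (u + h) * Real.Gamma (u + h) :=
    Real.Gamma_add_one (by linarith)
  rw [h2, Real.log_mul (by linarith) (Real.Gamma_pos_of_pos (by linarith)).ne'] at h1
  have h3 : u + h - u = h := by ring
  have h4 : u + h + 1 - (u + h) = 1 := by ring
  rw [h3, h4, div_one, div_le_iff₀ hh] at h1
  linarith

/-- Lower slope bound of `log Gamma`. -/
theorem sl_down {u h : ℝ} (hu : 1 < u) (hh : 0 < h) :
    h * Real.log (u - 1) ≤ Real.log (Real.Gamma (u + h)) - Real.log (Real.Gamma u) := by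
  have h1 := Real.convexOn_log_Gamma.slope_mono_adjacent (x := u - 1) (y := u) (z := u + h)
    (mem_Ioi.2 (by linarith)) (mem_Ioi.2 (by linarith)) (by linarith) (by linarith)
  simp only [Function.comp_apply] at h1
  have h2 : Real.Gamma u = (u - 1) * Real.Gamma (u - 1) := by
    have := Real.Gamma_add_one (s := u - 1) (by linarith)
    rwa [sub_add_cancel] at this
  have h5 : Real.log (Real.Gamma u) = Real.log (u - 1) + Real.log (Real.Gamma (u - 1)) := by
    rw [h2, Real.log_mul (by linarith) (Real.Gamma_pos_of_pos (by linarith)).ne']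
  have h3 : u - (u - 1) = 1 := by ring
  have h4 : u + h - u = h := by ring
  rw [h3, h4, div_one, le_div_iff₀ hh] at h1
  rw [h5] at h1 ⊢
  linarith

theorem pf_SL : U_SL := by
  intro n hn s hs1 hs2
  have hn' : (1 : ℝ) ≤ n := by exact_mod_cast hn
  set x : ℝ := (2 * n + s) / 4 with hx
  set c : ℝ := 2 * Real.pi ^ ((n : ℝ) + 1 / 2) / Real.Gamma n with hcdef
  have hc : 0 < c := by
    have h1 : 0 < Real.Gamma (n : ℝ) := Real.Gamma_pos_of_pos (by linarith)
    positivity
  set z : ℝ := (n : ℝ) + 1 / 2 with hz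
  have hx0 : 5 / 4 ≤ x := by rw [hx]; linarith
  have hxz : x ≤ z := by rw [hx, hz]; linarith
  have hz4 : z - x = (2 * n + 2 - s) / 4 := by rw [hx, hz]; ring
  have hzx : z ≤ x + 1 / 4 := by linarith
  have e1 : sg n s = c * (Real.Gamma x / Real.Gamma (x + 1 / 2)) := by
    unfold sg
    have h2 : (2 * (n : ℝ) + 2 + s) / 4 = x + 1 / 2 := by rw [hx]; ring
    rw [h2]
  have e2 : sg n (2 * n + 2) = c * (Real.Gamma z / Real.Gamma (z + 1 / 2)) := by
    unfold sg
    have h1 : (2 * (n : ℝ) + (2 * n + 2)) / 4 = z := by rw [hz]; ring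
    have h2 : (2 * (n : ℝ) + 2 + (2 * n + 2)) / 4 = z + 1 / 2 := by rw [hz]; ring
    rw [h1, h2]
  have hGx : 0 < Real.Gamma x := Real.Gamma_pos_of_pos (by linarith)
  have hGx' : 0 < Real.Gamma (x + 1 / 2) := Real.Gamma_pos_of_pos (by linarith)
  have hGz : 0 < Real.Gamma z := Real.Gamma_pos_of_pos (by linarith)
  have hGz' : 0 < Real.Gamma (z + 1 / 2) := Real.Gamma_pos_of_pos (by linarith)
  constructor
  · rw [e1, e2]
    refine mul_le_mul_of_nonneg_left ?_ hc.le
    rw [div_le_div_iff₀ hGz' hGx']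
    exact sl_anti (by linarith) hxz
  · rcases hxz.eq_or_lt with h | h
    · have : s = 2 * n + 2 := by rw [h] at hz4; linarith
      rw [this]; simp
    · rw [e1, e2, Real.log_mul hc.ne' (by positivity), Real.log_mul hc.ne' (by positivity),
        Real.log_div hGx.ne' hGx'.ne', Real.log_div hGz.ne' hGz'.ne']
      have hh : 0 < z - x := by linarith
      have h1 := sl_up (u := x + 1 / 2) (h := z - x) (by linarith) hh
      have h2 := sl_down (u := x) (h := z - x) (by linarith) hh
      have e3 : x + 1 / 2 + (z - x) = z + 1 / 2 := by ring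
      have e4 : x + (z - x) = z := by ring
      rw [e3] at h1
      rw [e4] at h2
      have h3 : Real.log (z + 1 / 2) ≤ Real.log (8 * (x - 1)) :=
        Real.log_le_log (by linarith) (by linarith)
      rw [Real.log_mul (by norm_num) (by linarith)] at h3
      have h4 : Real.log 8 ≤ 3 := by
        have : (8 : ℝ) = 2 ^ 3 := by norm_num
        rw [this, Real.log_pow]
        have := Real.log_two_lt_d9
        push_cast
        linarith
      have h5 : (z - x) * Real.log (z + 1 / 2) ≤ (z - x) * (3 + Real.log (x - 1)) :=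
        mul_le_mul_of_nonneg_left (by linarith) hh.le
      have h6 : 2 * (n : ℝ) + 2 - s = 4 * (z - x) := by rw [hz4]; ring
      rw [h6]
      nlinarith

end Pool.Agent.H67.HQ
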